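import Pool.Agent.H414R4.MZEnd

/-!
# MP_945c9c_an: weights for the Hilbert transform on functions of mean value zero

If `∫ |Hf|^p U ≤ C ∫ |f|^p U` for all `f ∈ L¹(ℝ)` with `∫ f = 0`, then `U ∈ A_p`, or
`|x - x₀|^{-p} U ∈ A_p` for some point `x₀`, or `(1 + |x|)^{-p} U ∈ A_p`.
In particular `U = W₁ + |x - x₀|^p W₂` for some point `x₀`, where each of `W₁`, `W₂` is zero or
belongs to `A_p`: the known sufficient condition (up to translation) is necessary.
-/

open MeasureTheory Set Filter Topology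
open scoped ENNReal NNReal

namespace Pool.Agent.Results.MP_945c9c_an.MeanZeroWeights

open Pool.Agent.H414R4.MZ

/-- A weight: measurable, nonnegative, locally integrable and not a.e. zero. -/
def IsWeight (U : ℝ → ℝ) : Prop :=
  Measurable U ∧ (∀ x, 0 ≤ U x) ∧ LocallyIntegrable U volume ∧ ¬ (U =ᵐ[volume] 0)

/-- The Hilbert transform, as a principal value:
`Hf(x) = (1/π) lim_{δ ↓ 0} ∫_{|y - x| > δ} f(y) / (x - y) dy`. -/
noncomputable def hilbert (f : ℝ → ℝ) (x : ℝ) : ℝ :=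
  (1 / Real.pi) *
    limUnder (𝓝[>] (0 : ℝ)) (fun δ => ∫ y in {y : ℝ | δ < |y - x|}, f y / (x - y))

/-- `U` is admissible for `p`: `∫ |Hf|^p U ≤ C ∫ |f|^p U` for all `f ∈ L¹(ℝ)` with `∫ f = 0`. -/
def Admissible (p : ℝ) (U : ℝ → ℝ) : Prop :=
  ∃ C : ℝ≥0, ∀ f : ℝ → ℝ, Integrable f volume → ∫ y, f y = 0 →
    ∫⁻ x, ENNReal.ofReal (|hilbert f x| ^ p * U x) ≤
      (C : ℝ≥0∞) * ∫⁻ x, ENNReal.ofReal (|f x| ^ p * U x)

/-- `W ∈ A_p`: `W` is a weight and the supremum over all bounded intervals `[a, b]` of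
`((1/|I|) ∫_I W) ((1/|I|) ∫_I W^{-1/(p-1)})^{p-1}` is finite (`W^{-1/(p-1)} = ∞` where `W = 0`). -/
def IsAp (p : ℝ) (W : ℝ → ℝ) : Prop :=
  IsWeight W ∧ ∃ C : ℝ≥0, ∀ a b : ℝ, a < b →
    ((ENNReal.ofReal (b - a))⁻¹ * ∫⁻ x in Icc a b, ENNReal.ofReal (W x)) *
      ((ENNReal.ofReal (b - a))⁻¹ *
        ∫⁻ x in Icc a b, ENNReal.ofReal (W x) ^ (-(1 / (p - 1)))) ^ (p - 1) ≤ (C : ℝ≥0∞)

theorem hilbert_off {f : ℝ → ℝ} {x ε : ℝ} (hε : 0 < ε) (hf : ∀ y, |y - x| < ε → f y = 0) :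
    hilbert f x = (1 / Real.pi) * K f x := by
  unfold hilbert K
  congr 1
  apply Tendsto.limUnder_eq
  apply tendsto_const_nhds.congr'
  filter_upwards [Ioo_mem_nhdsGT hε] with δ hδ
  symm
  apply setIntegral_eq_integral_of_forall_compl_eq_zero
  intro y hy
  have hy' : |y - x| ≤ δ := not_lt.mp hy
  rw [hf y (lt_of_le_of_lt hy' hδ.2), zero_div]

theorem good_of_admissible {p : ℝ} {U : ℝ → ℝ} (h : Admissible p U) :
    ∃ D : ℝ≥0∞, D ≠ ⊤ ∧ Good p D U := by
  obtain ⟨C, hC⟩ := h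
  refine ⟨ENNReal.ofReal (Real.pi ^ p) * C, ENNReal.mul_ne_top ENNReal.ofReal_ne_top
    ENNReal.coe_ne_top, ?_⟩
  intro f hf hf0 J hJ hz
  have hpi := Real.pi_pos
  have h1 : ∀ x ∈ J, ENNReal.ofReal (|K f x| ^ p * U x) =
      ENNReal.ofReal (Real.pi ^ p) * ENNReal.ofReal (|hilbert f x| ^ p * U x) := by
    intro x hx
    obtain ⟨ε, hε, h0⟩ := hz x hx
    have e : |K f x| = Real.pi * |hilbert f x| := by
      rw [hilbert_off hε h0, abs_mul, abs_of_pos (one_div_pos.mpr hpi), ← mul_assoc,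
        mul_one_div_cancel hpi.ne', one_mul]
    rw [← ENNReal.ofReal_mul (by positivity), e, Real.mul_rpow hpi.le (abs_nonneg _), mul_assoc]
  calc ∫⁻ x in J, ENNReal.ofReal (|K f x| ^ p * U x)
      = ∫⁻ x in J, ENNReal.ofReal (Real.pi ^ p) * ENNReal.ofReal (|hilbert f x| ^ p * U x) :=
        setLIntegral_congr_fun hJ h1
    _ = ENNReal.ofReal (Real.pi ^ p) * ∫⁻ x in J, ENNReal.ofReal (|hilbert f x| ^ p * U x) :=
        lintegral_const_mul' _ _ ENNReal.ofReal_ne_top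
    _ ≤ ENNReal.ofReal (Real.pi ^ p) * ∫⁻ x, ENNReal.ofReal (|hilbert f x| ^ p * U x) := by
        gcongr; exact Measure.restrict_le_self
    _ ≤ ENNReal.ofReal (Real.pi ^ p) * (C * ∫⁻ x, ENNReal.ofReal (|f x| ^ p * U x)) := by
        gcongr; exact hC f hf hf0
    _ = _ := by ring

/-- an `A_p` bound makes the weight integrable on bounded intervals -/
theorem lint_lt_of {p : ℝ} (hp : 1 < p) {w : ℝ → ℝ} (hm : Measurable w) {C : ℝ≥0∞} (hC : C ≠ ⊤)
    (h : ApBd p w C) {a L : ℝ} (hL : 0 < L) :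
    ∫⁻ x in Ioo a (a + L), ENNReal.ofReal (w x) < ⊤ := by
  by_contra hc
  rw [not_lt, top_le_iff] at hc
  have h1 := h a L hL
  have hs : ∫⁻ x in Ioo a (a + L), sig p w x ≠ 0 := by
    intro h0
    rw [lintegral_eq_zero_iff (sig_meas hm)] at h0
    have h2 : ∀ x, sig p w x ≠ 0 := by
      intro x hx
      unfold sig at hx
      rcases ENNReal.rpow_eq_zero_iff.mp hx with ⟨_, h3⟩ | ⟨h3, _⟩
      · have : 0 < 1 / (p - 1) := by apply one_div_pos.mpr; linarith
        linarith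
      · exact ENNReal.ofReal_ne_top h3
    have h3 : (volume.restrict (Ioo a (a + L))) univ = 0 := by
      rw [Filter.EventuallyEq, ae_iff] at h0
      have : {x | ¬ sig p w x = (0 : ℝ → ℝ≥0∞) x} = univ := by
        rw [eq_univ_iff_forall]; intro x; exact h2 x
      rwa [this] at h0
    rw [Measure.restrict_apply_univ, Real.volume_Ioo, ENNReal.ofReal_eq_zero] at h3
    linarith
  rw [hc, ENNReal.top_mul (by
    intro h0
    rcases ENNReal.rpow_eq_zero_iff.mp h0 with ⟨h2, _⟩ | ⟨_, h3⟩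
    · exact hs h2
    · linarith), top_le_iff] at h1
  exact ENNReal.mul_ne_top hC (ENNReal.rpow_ne_top_of_nonneg (by linarith) ENNReal.ofReal_ne_top) h1

theorem isAp_of {p : ℝ} (hp : 1 < p) {W : ℝ → ℝ} (hm : Measurable W) (h0 : ∀ x, 0 ≤ W x)
    (hne : ¬ (W =ᵐ[volume] 0)) {C : ℝ≥0∞} (hC : C ≠ ⊤) (h : ApBd p W C) : IsAp p W := by
  refine ⟨⟨hm, h0, ?_, hne⟩, C.toNNReal, fun a b hab => ?_⟩
  · intro x
    refine ⟨Ioo (x - 1) (x - 1 + 2), Ioo_mem_nhds (by linarith) (by linarith), ?_⟩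
    refine ⟨hm.aestronglyMeasurable, ?_⟩
    rw [hasFiniteIntegral_iff_ofReal (by filter_upwards with x; exact h0 x)]
    exact lint_lt_of hp hm hC h (by norm_num)
  · rw [ENNReal.coe_toNNReal hC]
    exact h.avg hp hab

theorem lint_lt {U : ℝ → ℝ} (hU : IsWeight U) (a b : ℝ) :
    ∫⁻ x in Icc a b, ENNReal.ofReal (U x) < ⊤ := by
  have h1 : IntegrableOn U (Icc a b) := hU.2.2.1.integrableOn_isCompact isCompact_Icc
  have h2 := h1.2
  rw [hasFiniteIntegral_iff_ofReal (by filter_upwards with x; exact hU.2.1 x)] at h2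
  exact h2

theorem ne_zero_mul {U v : ℝ → ℝ} (hU : IsWeight U) (hvp : ∀ᵐ x : ℝ, v x ≠ 0) :
    ¬ ((fun x => v x * U x) =ᵐ[volume] 0) := by
  intro h
  apply hU.2.2.2
  filter_upwards [h, hvp] with x hx hv
  have hx' : v x * U x = 0 := hx
  rcases mul_eq_zero.mp hx' with h1 | h1
  · exact absurd h1 hv
  · exact h1

/-- the `A_p` bound passes to comparable weights -/
theorem ApBd_comp {p : ℝ} (hp : 1 < p) {w w' : ℝ → ℝ} {C : ℝ≥0∞} {c : ℝ} (hc : 0 ≤ c)
    (h1 : ∀ x, w x ≤ w' x) (h2 : ∀ x, w' x ≤ c * w x) (h : ApBd p w C) :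
    ApBd p w' (ENNReal.ofReal c * C) := by
  intro a L hL
  have hp1 : 0 < 1 / (p - 1) := by apply one_div_pos.mpr; linarith
  have e1 : ∫⁻ x in Ioo a (a + L), ENNReal.ofReal (w' x) ≤
      ENNReal.ofReal c * ∫⁻ x in Ioo a (a + L), ENNReal.ofReal (w x) := by
    rw [← lintegral_const_mul' _ _ ENNReal.ofReal_ne_top]
    apply lintegral_mono
    intro x
    simp only
    rw [← ENNReal.ofReal_mul hc]
    exact ENNReal.ofReal_le_ofReal (h2 x)
  have e2 : ∫⁻ x in Ioo a (a + L), sig p w' x ≤ ∫⁻ x in Ioo a (a + L), sig p w x := by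
    apply lintegral_mono
    intro x
    unfold sig
    rw [ENNReal.rpow_neg, ENNReal.rpow_neg]
    apply ENNReal.inv_le_inv.mpr
    exact ENNReal.rpow_le_rpow (ENNReal.ofReal_le_ofReal (h1 x)) hp1.le
  calc _ ≤ (ENNReal.ofReal c * ∫⁻ x in Ioo a (a + L), ENNReal.ofReal (w x)) *
        (∫⁻ x in Ioo a (a + L), sig p w x) ^ (p - 1) := by
        gcongr
    _ = ENNReal.ofReal c * ((∫⁻ x in Ioo a (a + L), ENNReal.ofReal (w x)) *
        (∫⁻ x in Ioo a (a + L), sig p w x) ^ (p - 1)) := by ring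
    _ ≤ ENNReal.ofReal c * (C * ENNReal.ofReal L ^ p) := mul_le_mul' le_rfl (h a L hL)
    _ = _ := by ring

/-- **Theorem.** Let `1 < p < ∞` and let `U` be an admissible weight. Then `U ∈ A_p`, or
`|x - x₀|^{-p} U(x) ∈ A_p` for some `x₀`, or `(1 + |x|)^{-p} U(x) ∈ A_p`. Moreover there are a
point `x₀` and functions `W₁, W₂`, each either zero or in `A_p`, with
`U(x) = W₁(x) + |x - x₀|^p W₂(x)` for a.e. `x`. -/
theorem result (p : ℝ) (hp : 1 < p) (U : ℝ → ℝ) (hU : IsWeight U) (hadm : Admissible p U) :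
    (IsAp p U ∨ (∃ x₀ : ℝ, IsAp p fun x => |x - x₀| ^ (-p) * U x) ∨
      IsAp p fun x => (1 + |x|) ^ (-p) * U x) ∧
    ∃ (x₀ : ℝ) (W₁ W₂ : ℝ → ℝ), (W₁ = 0 ∨ IsAp p W₁) ∧ (W₂ = 0 ∨ IsAp p W₂) ∧
      ∀ᵐ x : ℝ, U x = W₁ x + |x - x₀| ^ p * W₂ x := by
  have hp0 : 0 < p := by linarith
  obtain ⟨hUm, hU0, hUloc, hUne⟩ := id hU
  obtain ⟨D, hD, hG⟩ := good_of_admissible hadm
  have h2p : (2 : ℝ≥0∞) ^ (p - 1) ≠ ⊤ :=
    ENNReal.rpow_ne_top_of_nonneg (by linarith) (by simp)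
  have hcp : ∀ c : ℝ, ENNReal.ofReal c ^ p ≠ ⊤ := fun c =>
    ENNReal.rpow_ne_top_of_nonneg hp0.le ENNReal.ofReal_ne_top
  by_cases hsing : ∃ x₀ : ℝ, ∀ η > 0, ∫⁻ x in Ioo (x₀ - η) (x₀ + η), sig p U x = ⊤
  · obtain ⟨x₀, hx₀⟩ := hsing
    have hae : ∀ᵐ x : ℝ, x ≠ x₀ := by rw [ae_iff]; simp
    have hb := caseI_Ap hp hD hUm hU0 hG hx₀
    have hW : IsAp p fun x => |x - x₀| ^ (-p) * U x := by
      refine isAp_of hp (by fun_prop) (fun x => mul_nonneg (by positivity) (hU0 x))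
        (ne_zero_mul hU ?_) ?_ hb
      · filter_upwards [hae] with x hx
        exact (Real.rpow_pos_of_pos (abs_pos.mpr (sub_ne_zero.mpr hx)) _).ne'
      · exact ENNReal.mul_ne_top (ENNReal.mul_ne_top (hcp 6) (ENNReal.mul_ne_top hD h2p))
          (ENNReal.mul_ne_top (hcp 6) (ENNReal.mul_ne_top hD h2p))
    refine ⟨Or.inr (Or.inl ⟨x₀, hW⟩), x₀, 0, _, Or.inl rfl, Or.inr hW, ?_⟩
    filter_upwards [hae] with x hx
    have h0 : 0 < |x - x₀| := abs_pos.mpr (sub_ne_zero.mpr hx)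
    rw [← mul_assoc, ← Real.rpow_add h0]
    simp
  · push Not at hsing
    have hloc := loc_fin hsing
    by_cases hS : ∫⁻ x, sig p U x = ⊤
    · have hb := caseII_Ap hp hD hUm hU0 hG (fun R a _ => inf_of hloc hS R a)
      have hW : IsAp p U := by
        refine isAp_of hp hUm hU0 hUne ?_ hb
        exact ENNReal.mul_ne_top (ENNReal.mul_ne_top (hcp 4) (ENNReal.mul_ne_top hD h2p))
          (ENNReal.mul_ne_top (hcp 4) (ENNReal.mul_ne_top hD h2p))
      refine ⟨Or.inl hW, 0, U, 0, Or.inr hW, Or.inl rfl, ?_⟩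
      filter_upwards with x
      simp
    · have hP : ∫⁻ x in Icc (-3 : ℝ) 3, ENNReal.ofReal (U x) ≠ ⊤ := (lint_lt hU _ _).ne
      have hK0 := K0_ne_top hp hD hS hP
      have hK1 := K1_ne_top hp hS hP
      have hb := caseIII_Ap hp hUm hU0 hG hS
      have c8 := ENNReal.mul_ne_top (hcp 8) hK0
      have c6 := ENNReal.mul_ne_top (hcp 6) (ENNReal.mul_ne_top hK0 hK1)
      have hfin : ((ENNReal.ofReal 8 ^ p * K0 p U D) * (ENNReal.ofReal 8 ^ p * K0 p U D) +
          (2 ^ (p - 1) * (2 * ((ENNReal.ofReal 6 ^ p * (K0 p U D * K1 p U)) *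
          (ENNReal.ofReal 6 ^ p * (K0 p U D * K1 p U))) +
          2 * (ENNReal.ofReal 6 ^ p * (K0 p U D * K1 p U)))) * ENNReal.ofReal 24 ^ p) ≠ ⊤ := by
        refine ENNReal.add_ne_top.mpr ⟨ENNReal.mul_ne_top c8 c8, ENNReal.mul_ne_top
          (ENNReal.mul_ne_top h2p (ENNReal.add_ne_top.mpr ⟨ENNReal.mul_ne_top (by simp)
            (ENNReal.mul_ne_top c6 c6), ENNReal.mul_ne_top (by simp) c6⟩)) (hcp 24)⟩
      have hW : IsAp p fun x => (1 + |x|) ^ (-p) * U x := by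
        refine isAp_of hp (by fun_prop) (fun x => mul_nonneg (by positivity) (hU0 x))
          (ne_zero_mul hU ?_) hfin hb
        filter_upwards with x
        exact (Real.rpow_pos_of_pos (by positivity) _).ne'
      refine ⟨Or.inr (Or.inr hW), 0, fun x => (1 + |x| ^ p)⁻¹ * U x,
        fun x => (1 + |x| ^ p)⁻¹ * U x, ?_⟩
      have hV : IsAp p fun x => (1 + |x| ^ p)⁻¹ * U x := by
        have hb' : ApBd p (fun x => (1 + |x| ^ p)⁻¹ * U x) _ := ApBd_comp hp (c := 2 ^ p)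
          (by positivity) (w := fun x => (1 + |x|) ^ (-p) * U x) ?_ ?_ hb
        · refine isAp_of hp (by fun_prop) (fun x => mul_nonneg (by positivity) (hU0 x))
            (ne_zero_mul hU ?_) (ENNReal.mul_ne_top ENNReal.ofReal_ne_top hfin) hb'
          filter_upwards with x
          positivity
        · intro x
          have h1 : 1 + |x| ^ p ≤ (1 + |x|) ^ p := by
            have h2 := NNReal.add_rpow_le_rpow_add (1 : ℝ≥0) ‖x‖₊ hp.le
            have h3 : (1 : ℝ) ^ p + ‖x‖ ^ p ≤ (1 + ‖x‖) ^ p := by exact_mod_cast h2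
            simpa using h3
          have h3 := hU0 x
          rw [Real.rpow_neg (by positivity)]
          gcongr
        · intro x
          have h1 : (1 + |x|) ^ p ≤ 2 ^ p * (1 + |x| ^ p) := by
            rcases le_total 1 |x| with h | h
            · calc (1 + |x|) ^ p ≤ (2 * |x|) ^ p := by
                    apply Real.rpow_le_rpow (by positivity) _ hp0.le; linarith
                _ = 2 ^ p * |x| ^ p := Real.mul_rpow (by norm_num) (abs_nonneg x)
                _ ≤ _ := by gcongr; linarith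
            · calc (1 + |x|) ^ p ≤ 2 ^ p := by
                    apply Real.rpow_le_rpow (by positivity) _ hp0.le; linarith
                _ = 2 ^ p * 1 := (mul_one _).symm
                _ ≤ _ := by
                  gcongr
                  have : 0 ≤ |x| ^ p := by positivity
                  linarith
          have h3 := hU0 x
          have h4 : (1 + |x| ^ p)⁻¹ ≤ 2 ^ p * (1 + |x|) ^ (-p) := by
            rw [Real.rpow_neg (by positivity), ← div_eq_mul_inv, inv_le_comm₀ (by positivity)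
              (by positivity), inv_div, div_le_iff₀ (by positivity)]
            linarith
          calc (1 + |x| ^ p)⁻¹ * U x ≤ (2 ^ p * (1 + |x|) ^ (-p)) * U x := by gcongr
            _ = _ := by ring
      refine ⟨Or.inr hV, Or.inr hV, ?_⟩
      filter_upwards with x
      have : 0 < 1 + |x| ^ p := by positivity
      rw [sub_zero]
      field_simp

end Pool.Agent.Results.MP_945c9c_an.MeanZeroWeights
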